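import Pool.Agent.Q211.Lotto.Final

/-!
# MP_ed16aa_pr: uniqueness of the aggregate strategy in Population Lotto equilibria

The two equilibria live on arbitrary probability spaces of players; the only link between them is
that the budgets have the same law (an arbitrary Borel law on `(0, ∞)`: with a density, with
finitely many values, or neither).  The aggregate strategies coincide.  Definitions (`payoff`,
`IsStrategy`, `IsNash`) are in `Pool.Agent.Q211.Lotto.Defs`.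
-/

open MeasureTheory Set ProbabilityTheory

namespace Pool.Agent.Results.MP_ed16aa_pr.UniqueAggregate

open Pool.Agent.Q211.Lotto

universe u v

theorem result
    {Ω₁ : Type u} [MeasurableSpace Ω₁] (P₁ : Measure Ω₁) [IsProbabilityMeasure P₁]
    (b₁ : Ω₁ → ℝ) (κ₁ : Kernel Ω₁ ℝ) [IsMarkovKernel κ₁]
    {Ω₂ : Type v} [MeasurableSpace Ω₂] (P₂ : Measure Ω₂) [IsProbabilityMeasure P₂]
    (b₂ : Ω₂ → ℝ) (κ₂ : Kernel Ω₂ ℝ) [IsMarkovKernel κ₂]
    (hm₁ : Measurable b₁) (hm₂ : Measurable b₂)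
    (hpos₁ : ∀ᵐ ω ∂P₁, 0 < b₁ ω) (hpos₂ : ∀ᵐ ω ∂P₂, 0 < b₂ ω)
    (hB : P₁.map b₁ = P₂.map b₂)
    (h₁ : IsNash P₁ b₁ κ₁) (h₂ : IsNash P₂ b₂ κ₂) :
    κ₁ ∘ₘ P₁ = κ₂ ∘ₘ P₂ :=
  unique_aggregate hm₁ hm₂ hpos₁ hpos₂ hB h₁ h₂

end Pool.Agent.Results.MP_ed16aa_pr.UniqueAggregate
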